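import Pool.Agent.helper15.XE.SpecL

set_option autoImplicit false

namespace Pool.Agent.XE

open Finset ArithmeticFunction
open Pool.Agent.EC (tri TL wt mt Adm edg mnf tI tII tyI cvl KK yN UN)
open Pool.Agent.CH (rgh dl eU Mo ClP ClB)

private theorem NRP_card (N : ℕ) (y : ℝ) (S : Finset ℕ)
    (hS : ∀ j ∈ S, j ≤ 64 * N ^ 3 ∧ IsPrimePow j ∧ ∃ p : ℕ, p.Prime ∧ p ∣ j ∧ (p : ℝ) ≤ y) :
    #S ≤ (⌊y⌋₊ + 1) * (Nat.log 2 (64 * N ^ 3) + 1) := by
  have hsub : S ⊆ ((range (⌊y⌋₊ + 1)) ×ˢ (range (Nat.log 2 (64 * N ^ 3) + 1))).image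
      (fun w : ℕ × ℕ => w.1 ^ w.2) := by
    intro j hj
    obtain ⟨h1, h2, q, hq, hqj, hqy⟩ := hS j hj
    obtain ⟨p, k, hp, hk, rfl⟩ := (isPrimePow_nat_iff _).1 h2
    have hqp : q = p := (Nat.prime_dvd_prime_iff_eq hq hp).1 (hq.dvd_of_dvd_pow hqj)
    rw [Finset.mem_image]
    refine ⟨(p, k), ?_, rfl⟩
    rw [mem_product, mem_range, mem_range]
    constructor
    · show p < ⌊y⌋₊ + 1
      rw [← hqp]
      exact Nat.lt_succ_of_le (Nat.le_floor hqy)
    · show k < Nat.log 2 (64 * N ^ 3) + 1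
      apply Nat.lt_succ_of_le
      apply Nat.le_log_of_pow_le (by norm_num)
      exact (Nat.pow_le_pow_left hp.two_le k).trans h1
  calc #S ≤ _ := Finset.card_le_card hsub
    _ ≤ #((range (⌊y⌋₊ + 1)) ×ˢ (range (Nat.log 2 (64 * N ^ 3) + 1))) := Finset.card_image_le
    _ = _ := by rw [Finset.card_product, card_range, card_range]

private theorem NRP_num (n L y K : ℝ) (hn : 0 < n) (hL : Real.log n = L) (hL0 : (50 : ℝ) ^ 20 ≤ L)
    (hy : y = Real.exp (L ^ (19 / 20 : ℝ))) (hK : K ≤ 10 * L) (hK0 : 0 ≤ K) :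
    (y + 1) * K * (6 * L) ≤ n ^ (1 / 10 : ℝ) := by
  have hLpos : 0 < L := lt_of_lt_of_le (by positivity) hL0
  have hnexp : n = Real.exp L := by rw [← hL, Real.exp_log hn]
  have h1 : L ^ (19 / 20 : ℝ) ≤ L / 50 := by
    have h2 : (50 : ℝ) ≤ L ^ (1 / 20 : ℝ) := by
      have h3 : ((50 : ℝ) ^ 20) ^ (1 / 20 : ℝ) ≤ L ^ (1 / 20 : ℝ) :=
        Real.rpow_le_rpow (by positivity) hL0 (by norm_num)
      have h4 : ((50 : ℝ) ^ 20) ^ (1 / 20 : ℝ) = 50 := by
        rw [← Real.rpow_natCast, ← Real.rpow_mul (by norm_num)]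
        norm_num
      linarith
    have h5 : L ^ (19 / 20 : ℝ) * L ^ (1 / 20 : ℝ) = L := by
      rw [← Real.rpow_add hLpos]
      norm_num
    have h6 : 0 < L ^ (19 / 20 : ℝ) := Real.rpow_pos_of_pos hLpos _
    nlinarith
  have hy1 : y ≤ Real.exp (L / 50) := by rw [hy]; exact Real.exp_le_exp.2 h1
  have hy0 : 1 ≤ y := by
    rw [hy]
    exact Real.one_le_exp (Real.rpow_nonneg hLpos.le _)
  have hLe : L ≤ 50 * Real.exp (L / 50) := by
    have := Real.add_one_le_exp (L / 50)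
    linarith
  set w : ℝ := Real.exp (L / 50) with hw
  have hw1 : (300000 : ℝ) ≤ w := by
    have h7 := Real.add_one_le_exp (L / 50)
    have h8 : (50 : ℝ) ^ 20 / 50 ≤ L / 50 := by linarith
    have h9 : (300000 : ℝ) ≤ (50 : ℝ) ^ 20 / 50 := by norm_num
    linarith
  have hn10 : n ^ (1 / 10 : ℝ) = w ^ 5 := by
    rw [hnexp, hw, ← Real.exp_mul, ← Real.exp_nat_mul]
    congr 1
    push_cast
    ring
  rw [hn10]
  have hw0 : 0 < w := by linarith
  calc (y + 1) * K * (6 * L) ≤ (2 * w) * (10 * L) * (6 * L) := by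
        have h10 : y + 1 ≤ 2 * w := by linarith
        have h11 : (y + 1) * K ≤ (2 * w) * (10 * L) := mul_le_mul h10 hK hK0 (by positivity)
        exact mul_le_mul_of_nonneg_right h11 (by positivity)
    _ = 120 * w * L ^ 2 := by ring
    _ ≤ 120 * w * (50 * w) ^ 2 := by
        apply mul_le_mul_of_nonneg_left _ (by positivity)
        exact pow_le_pow_left₀ hLpos.le hLe 2
    _ = 300000 * w ^ 3 := by ring
    _ ≤ w * w ^ 3 := mul_le_mul_of_nonneg_right hw1 (by positivity)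
    _ = w ^ 4 := by ring
    _ ≤ w ^ 5 := pow_le_pow_right₀ (by linarith) (by norm_num)

theorem NRP : NRP_stmt := by
  classical
  refine ⟨⌈Real.exp ((50 : ℝ) ^ 20)⌉₊, fun N hN => ?_⟩
  have hNr : Real.exp ((50 : ℝ) ^ 20) ≤ (N : ℝ) := (Nat.le_ceil _).trans (by exact_mod_cast hN)
  have hN0 : (0 : ℝ) < N := lt_of_lt_of_le (Real.exp_pos _) hNr
  have hL : (50 : ℝ) ^ 20 ≤ Real.log N := by
    rw [Real.le_log_iff_exp_le hN0]; exact hNr
  have hN1 : (1 : ℝ) ≤ N := by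
    have : (1 : ℕ) ≤ N := by exact_mod_cast hN0
    exact_mod_cast this
  have hLpos : 0 < Real.log N := lt_of_lt_of_le (by positivity) hL
  have hlog2 : Real.log (64 * (N : ℝ) ^ 3) ≤ 6 * Real.log N := by
    have h1 : (64 : ℝ) ≤ N := by
      have h2 : (50 : ℝ) ^ 20 + 1 ≤ N := (Real.add_one_le_exp _).trans hNr
      have h3 : (64 : ℝ) ≤ (50 : ℝ) ^ 20 := by norm_num
      linarith
    have h5 : (64 : ℝ) ≤ (N : ℝ) ^ 3 := by
      calc (64 : ℝ) ≤ N := h1
        _ = (N : ℝ) ^ 1 := by rw [pow_one]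
        _ ≤ (N : ℝ) ^ 3 := pow_le_pow_right₀ hN1 (by norm_num)
    have h4 : 64 * (N : ℝ) ^ 3 ≤ (N : ℝ) ^ 6 := by
      calc 64 * (N : ℝ) ^ 3 ≤ (N : ℝ) ^ 3 * (N : ℝ) ^ 3 := mul_le_mul_of_nonneg_right h5 (by positivity)
        _ = (N : ℝ) ^ 6 := by ring
    calc Real.log (64 * (N : ℝ) ^ 3) ≤ Real.log ((N : ℝ) ^ 6) := Real.log_le_log (by positivity) h4
      _ = 6 * Real.log N := by rw [Real.log_pow]; norm_num
  rw [← Finset.sum_filter_ne_zero]
  refine (Finset.sum_le_card_nsmul _ _ (6 * Real.log N) ?_).trans ?_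
  · intro j hj
    have h1 := (mem_filter.1 (mem_filter.1 hj).1).1
    rw [Z3, mem_Ioc] at h1
    refine vonMangoldt_le_log.trans (le_trans ?_ hlog2)
    apply Real.log_le_log
    · exact_mod_cast (lt_of_le_of_lt (Nat.zero_le _) h1.1)
    · exact_mod_cast h1.2
  · rw [nsmul_eq_mul]
    have hcard := NRP_card N (yN N) ((filter (fun j => ¬ rgh (yN N) j) (Z3 N)).filter
      fun j => vonMangoldt j ≠ 0) (fun j hj => by
      have h1 := (mem_filter.1 (mem_filter.1 hj).1).1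
      have h2 := (mem_filter.1 (mem_filter.1 hj).1).2
      have h3 := (mem_filter.1 hj).2
      rw [Z3, mem_Ioc] at h1
      refine ⟨h1.2, vonMangoldt_ne_zero_iff.1 h3, ?_⟩
      by_contra h4
      push Not at h4
      exact h2 ⟨by omega, fun p hp hpj => h4 p hp hpj⟩)
    have hy0 : 0 ≤ yN N := (Real.exp_pos _).le
    have hK : ((Nat.log 2 (64 * N ^ 3) + 1 : ℕ) : ℝ) ≤ 10 * Real.log N := by
      have hNn : 0 < N := by exact_mod_cast hN0
      have h1 : 2 ^ Nat.log 2 (64 * N ^ 3) ≤ 64 * N ^ 3 :=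
        Nat.pow_log_le_self 2 (by positivity)
      have h2 : (2 : ℝ) ^ Nat.log 2 (64 * N ^ 3) ≤ 64 * (N : ℝ) ^ 3 := by exact_mod_cast h1
      have h3 := Real.log_le_log (by positivity) h2
      rw [Real.log_pow] at h3
      have h4 : (0.69 : ℝ) ≤ Real.log 2 := by linarith [Real.log_two_gt_d9]
      push_cast
      have h5 : (0 : ℝ) ≤ (Nat.log 2 (64 * N ^ 3) : ℝ) := by positivity
      have h6 : (10 : ℝ) ≤ Real.log N := by
        have : (10 : ℝ) ≤ (50 : ℝ) ^ 20 := by norm_num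
        linarith
      nlinarith
    have h7 := NRP_num N (Real.log N) (yN N) _ hN0 rfl hL rfl hK (by positivity)
    refine le_trans ?_ h7
    refine mul_le_mul_of_nonneg_right ?_ (by positivity)
    refine (Nat.cast_le.2 hcard).trans ?_
    rw [Nat.cast_mul]
    refine mul_le_mul_of_nonneg_right ?_ (by positivity)
    push_cast
    linarith [Nat.floor_le hy0]

end Pool.Agent.XE
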