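import Pool.Agent.helper15.XE.SpecC

/-!
# Project XE (MP_5628fe_nt), row SQ4 (adapted from row SQ4 of project EC by helper40)
-/

set_option autoImplicit false

namespace Pool.Agent.XE

open Finset ArithmeticFunction
open Pool.Agent.EC (tri)

private lemma SQ4_dvd (a b d : ℕ) (hd : 0 < d) (hab : a ≤ b) :
    (#((Ioc a b).filter fun j => d ∣ j + 6) : ℝ) ≤ ((b : ℝ) - a) / d + 1 := by
  have h1 : #((Ioc a b).filter fun j => d ∣ j + 6) ≤ #(Ioc ((a + 6) / d) ((b + 6) / d)) := by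
    refine card_le_card_of_injOn (fun j => (j + 6) / d) ?_ ?_
    · intro j hj
      rw [mem_coe, mem_filter, mem_Ioc] at hj
      rw [mem_coe, mem_Ioc]
      obtain ⟨⟨h1, h2⟩, t, ht⟩ := hj
      refine ⟨?_, Nat.div_le_div_right (by omega)⟩
      rw [Nat.div_lt_iff_lt_mul hd]
      change a + 6 < (j + 6) / d * d
      rw [ht, Nat.mul_div_cancel_left _ hd, mul_comm, ← ht]
      omega
    · intro j hj j' hj' h
      rw [mem_coe, mem_filter] at hj hj'
      obtain ⟨-, t, ht⟩ := hj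
      obtain ⟨-, t', ht'⟩ := hj'
      simp only [ht, ht', Nat.mul_div_cancel_left _ hd] at h
      rw [h] at ht
      omega
  rw [Nat.card_Ioc] at h1
  have h2 : (((b + 6) / d - (a + 6) / d : ℕ) : ℝ) = (((b + 6) / d : ℕ) : ℝ) - (((a + 6) / d : ℕ) : ℝ) :=
    Nat.cast_sub (Nat.div_le_div_right (by omega))
  have h3 : (((b + 6) / d : ℕ) : ℝ) ≤ ((b : ℝ) + 6) / d := by
    have := @Nat.cast_div_le ℝ _ _ _ (b + 6) d
    push_cast at this
    exact this
  have hd0 : (0 : ℝ) < d := by exact_mod_cast hd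
  have h4 : ((a : ℝ) + 6) / d - 1 ≤ (((a + 6) / d : ℕ) : ℝ) := by
    have h5 : a + 6 < d * ((a + 6) / d + 1) := Nat.lt_mul_div_succ _ hd
    have h6 : (a : ℝ) + 6 < d * ((((a + 6) / d : ℕ) : ℝ) + 1) := by exact_mod_cast h5
    rw [sub_le_iff_le_add, div_le_iff₀ hd0]
    linarith
  have h7 : (#((Ioc a b).filter fun j => d ∣ j + 6) : ℝ) ≤ (((b + 6) / d - (a + 6) / d : ℕ) : ℝ) := by
    exact_mod_cast h1
  have h8 : ((b : ℝ) + 6) / d - ((a : ℝ) + 6) / d = ((b : ℝ) - a) / d := by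
    rw [← sub_div]
    congr 1
    ring
  linarith

private lemma SQ4_sum (m Y : ℕ) (hm : 2 ≤ m) :
    ∑ q ∈ Icc m Y, 1 / ((q : ℝ) ^ 2) ≤ 1 / ((m : ℝ) - 1) := by
  have hm' : (2 : ℝ) ≤ m := by exact_mod_cast hm
  rcases Nat.lt_or_ge Y m with h | h
  · rw [Icc_eq_empty (by omega), sum_empty]
    apply one_div_nonneg.2
    linarith
  · have key : ∀ Y : ℕ, m ≤ Y → ∑ q ∈ Icc m Y, 1 / ((q : ℝ) ^ 2) ≤ 1 / ((m : ℝ) - 1) - 1 / (Y : ℝ) := by
      intro Y hY
      induction Y, hY using Nat.le_induction with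
      | base =>
        rw [Icc_self, sum_singleton, ← sub_nonneg]
        have e : 1 / ((m : ℝ) - 1) - 1 / (m : ℝ) - 1 / ((m : ℝ) ^ 2) =
            1 / ((m : ℝ) ^ 2 * ((m : ℝ) - 1)) := by
          have h1 : (m : ℝ) - 1 ≠ 0 := by linarith
          have h2 : (m : ℝ) ≠ 0 := by linarith
          field_simp
          ring
        rw [e]
        apply one_div_nonneg.2
        apply mul_nonneg (by positivity)
        linarith
      | succ Y hY ih =>
        rw [Finset.sum_Icc_succ_top (by omega)]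
        have hY0 : (0 : ℝ) < Y := by
          have : 0 < Y := by omega
          exact_mod_cast this
        have e : 1 / (((Y + 1 : ℕ) : ℝ) ^ 2) ≤ 1 / (Y : ℝ) - 1 / ((Y + 1 : ℕ) : ℝ) := by
          push_cast
          rw [div_sub_div _ _ hY0.ne' (by positivity), div_le_div_iff₀ (by positivity) (by positivity)]
          nlinarith
        linarith
    refine (key Y h).trans ?_
    have : (0 : ℝ) ≤ 1 / (Y : ℝ) := by positivity
    linarith

private lemma SQ4_ev : ∃ x₀ : ℝ, ∀ x : ℝ, x₀ ≤ x → 64 ≤ x ∧ 2 ≤ x ^ (9 / 100 : ℝ) ∧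
    24 * x ^ (191 / 100 : ℝ) + 3 * x ^ (3 / 2 : ℝ) ≤ x ^ (39 / 20 : ℝ) / 4 ∧
    4 * x ^ (3 / 2 : ℝ) * (6 * Real.log x + 7) ≤ x ^ (39 / 20 : ℝ) / 4 := by
  have h0 := (tendsto_rpow_atTop (show (0 : ℝ) < 9 / 100 by norm_num)).eventually_ge_atTop 2
  have h1 := (tendsto_rpow_atTop (show (0 : ℝ) < 1 / 25 by norm_num)).eventually_ge_atTop 192
  have h2 := (tendsto_rpow_atTop (show (0 : ℝ) < 9 / 20 by norm_num)).eventually_ge_atTop 24
  have h3 := (isLittleO_log_rpow_atTop (show (0 : ℝ) < 9 / 20 by norm_num)).bound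
    (show (0 : ℝ) < 1 / 240 by norm_num)
  have h4 := (Filter.eventually_ge_atTop (Real.exp 7))
  obtain ⟨x₀, hx₀⟩ := Filter.eventually_atTop.1 (h0.and (h1.and (h2.and (h3.and h4))))
  refine ⟨max x₀ 64, fun x hx => ?_⟩
  obtain ⟨a0, a1, a2, a3, a4⟩ := hx₀ x ((le_max_left _ _).trans hx)
  have hx64 : 64 ≤ x := (le_max_right _ _).trans hx
  have hx0 : 0 < x := by linarith
  have hL7 : 7 ≤ Real.log x := by rw [Real.le_log_iff_exp_le hx0]; exact a4
  rw [Real.norm_of_nonneg (by linarith), Real.norm_of_nonneg (by positivity)] at a3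
  have b1 : 24 * x ^ (191 / 100 : ℝ) ≤ 1 / 8 * x ^ (39 / 20 : ℝ) := by
    have e1 : x ^ (39 / 20 : ℝ) = x ^ (191 / 100 : ℝ) * x ^ (1 / 25 : ℝ) := by
      rw [← Real.rpow_add hx0]
      norm_num
    have e2 : 0 ≤ x ^ (191 / 100 : ℝ) := by positivity
    rw [e1]
    nlinarith
  have b2 : 3 * x ^ (3 / 2 : ℝ) ≤ 1 / 8 * x ^ (39 / 20 : ℝ) := by
    have e1 : x ^ (39 / 20 : ℝ) = x ^ (3 / 2 : ℝ) * x ^ (9 / 20 : ℝ) := by
      rw [← Real.rpow_add hx0]
      norm_num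
    have e2 : 0 ≤ x ^ (3 / 2 : ℝ) := by positivity
    rw [e1]
    nlinarith
  refine ⟨hx64, a0, by linarith, ?_⟩
  have e : x ^ (39 / 20 : ℝ) = x ^ (3 / 2 : ℝ) * x ^ (9 / 20 : ℝ) := by
    rw [← Real.rpow_add hx0]
    norm_num
  rw [e]
  have h5 : 0 ≤ x ^ (3 / 2 : ℝ) := by positivity
  have h6 : 4 * (6 * Real.log x + 7) ≤ x ^ (9 / 20 : ℝ) / 4 := by linarith
  calc 4 * x ^ (3 / 2 : ℝ) * (6 * Real.log x + 7) = x ^ (3 / 2 : ℝ) * (4 * (6 * Real.log x + 7)) := by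
        ring
    _ ≤ x ^ (3 / 2 : ℝ) * (x ^ (9 / 20 : ℝ) / 4) := mul_le_mul_of_nonneg_left h6 h5
    _ = _ := by ring

/-- the support of a window -/
private lemma SQ4_supp (N : ℕ) (hN : 64 ≤ N) (v : ℝ) (hv : InB N v) :
    ∃ A B : ℕ, A ≤ B ∧ ((B : ℝ) - A) ≤ 12 * (N : ℝ) ^ 2 ∧ ∀ j : ℕ, 0 < j → wv N v j ≠ 0 → A < j ∧ j ≤ B := by
  have hN64 : (64 : ℝ) ≤ N := by exact_mod_cast hN
  have hN0 : (0 : ℝ) < N := by linarith
  obtain ⟨x, hx⟩ : ∃ x : ℝ, x = 1 / (N : ℝ) := ⟨_, rfl⟩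
  have hx0 : 0 < x := by rw [hx]; positivity
  have hx1 : x ≤ 1 / 64 := by rw [hx]; exact one_div_le_one_div_of_le (by norm_num) hN64
  have hxN : x * N = 1 := by rw [hx]; field_simp
  have hle : ⌊Real.exp (v - x)⌋₊ ≤ ⌊Real.exp (v + x)⌋₊ := Nat.floor_le_floor (Real.exp_le_exp.2 (by linarith))
  refine ⟨⌊Real.exp (v - x)⌋₊, ⌊Real.exp (v + x)⌋₊, hle, ?_, ?_⟩
  · have h1 : (⌊Real.exp (v + x)⌋₊ : ℝ) ≤ Real.exp (v + x) := Nat.floor_le (Real.exp_pos _).le
    have h2 : Real.exp (v - x) < (⌊Real.exp (v - x)⌋₊ : ℝ) + 1 := Nat.lt_floor_add_one _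
    have h3 : Real.exp (v + x) - Real.exp (v - x) = Real.exp v * (Real.exp x - Real.exp (-x)) := by
      rw [Real.exp_add, sub_eq_add_neg v x, Real.exp_add]; ring
    have h4 : Real.exp x ≤ 1 + 2 * x := by
      have := Real.exp_bound_div_one_sub_of_interval hx0.le (by linarith : x < 1)
      refine this.trans ?_
      rw [div_le_iff₀ (by linarith)]
      nlinarith
    have h5 : 1 - x ≤ Real.exp (-x) := by
      have := Real.add_one_le_exp (-x)
      linarith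
    have h6 : Real.exp v ≤ 3 * (N : ℝ) ^ 3 := by
      have e1 : Real.exp v ≤ Real.exp (3 * Real.log N + 1) := Real.exp_le_exp.2 (by have := hv.2; linarith)
      have e2 : Real.exp (3 * Real.log N + 1) = (N : ℝ) ^ 3 * Real.exp 1 := by
        rw [Real.exp_add, ← Real.exp_log (by positivity : (0 : ℝ) < (N : ℝ) ^ 3), Real.log_pow]
        norm_num
      have e3 : Real.exp 1 ≤ 3 := by linarith [Real.exp_one_lt_d9]
      rw [e2] at e1
      have e4 : (0 : ℝ) < (N : ℝ) ^ 3 := by positivity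
      nlinarith
    have h7 : Real.exp v * (Real.exp x - Real.exp (-x)) ≤ 3 * (N : ℝ) ^ 3 * (3 * x) := by
      refine mul_le_mul h6 (by linarith) ?_ (by positivity)
      have := Real.exp_le_exp.2 (by linarith : -x ≤ x)
      linarith
    have h8 : 3 * (N : ℝ) ^ 3 * (3 * x) = 9 * (N : ℝ) ^ 2 := by
      calc 3 * (N : ℝ) ^ 3 * (3 * x) = 9 * (N : ℝ) ^ 2 * (x * N) := by ring
        _ = 9 * (N : ℝ) ^ 2 := by rw [hxN, mul_one]
    have h9 : (1 : ℝ) ≤ (N : ℝ) ^ 2 := by nlinarith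
    linarith
  · intro j hj hw
    have hj0 : (0 : ℝ) < j := by exact_mod_cast hj
    have h1 : |Real.log j - v| < x := by
      by_contra hc
      push Not at hc
      apply hw
      unfold wv tri
      rw [← hx]
      have : 1 ≤ |Real.log j - v| / x := (one_le_div hx0).2 hc
      exact max_eq_left (by linarith)
    rw [abs_lt] at h1
    constructor
    · have h2 : Real.exp (v - x) < j := by
        rw [← Real.lt_log_iff_exp_lt hj0]
        linarith
      have h3 : (⌊Real.exp (v - x)⌋₊ : ℝ) < j := lt_of_le_of_lt (Nat.floor_le (Real.exp_pos _).le) h2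
      exact_mod_cast h3
    · apply Nat.le_floor
      have h2 : (j : ℝ) < Real.exp (v + x) := by
        rw [← Real.log_lt_iff_lt_exp hj0]
        linarith
      exact h2.le

open Classical in
theorem SQ4 (h1 : WVB_stmt) : SQ4_stmt := by
  obtain ⟨x₀, hx₀⟩ := SQ4_ev
  obtain ⟨N₁, hN₁, hWVB⟩ := h1
  refine ⟨⌈x₀⌉₊ + N₁, fun N hN v hv => ?_⟩
  have hNx : x₀ ≤ N := (Nat.le_ceil _).trans (by exact_mod_cast (by omega : ⌈x₀⌉₊ ≤ N))
  obtain ⟨hsup, -⟩ := hWVB N (by omega)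
  obtain ⟨-, -, -, hsup2⟩ := hsup v hv
  have hS : ∀ j : ℕ, wv N v j ≠ 0 → N ^ 3 < j ∧ j + 6 ≤ 3 * N ^ 3 := fun j => (hsup2 j).2.2.1
  obtain ⟨h64, h9, hA, hB⟩ := hx₀ N hNx
  have hN0 : (0 : ℝ) < N := by linarith
  have hNpos : 0 < N := by exact_mod_cast hN0
  have hN64 : 64 ≤ N := by exact_mod_cast h64
  obtain ⟨a, b, hab, hWin, hab2⟩ := SQ4_supp N hN64 v hv
  -- the root bound
  obtain ⟨Y, hY⟩ : ∃ Y : ℕ, Y = Nat.sqrt (9 * N ^ 3) := ⟨_, rfl⟩
  have hN3 : 6 ≤ N ^ 3 := by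
    calc 6 ≤ N := by omega
      _ = N ^ 1 := (pow_one _).symm
      _ ≤ N ^ 3 := Nat.pow_le_pow_right hNpos (by norm_num)
  have hYR : (Y : ℝ) ≤ 3 * (N : ℝ) ^ (3 / 2 : ℝ) := by
    have h1 : Y * Y ≤ 9 * N ^ 3 := by rw [hY]; exact Nat.sqrt_le _
    have h2 : (Y : ℝ) ^ 2 ≤ (3 * (N : ℝ) ^ (3 / 2 : ℝ)) ^ 2 := by
      rw [mul_pow, ← Real.rpow_natCast ((N : ℝ) ^ (3 / 2 : ℝ)) 2, ← Real.rpow_mul hN0.le]
      have e : (3 / 2 : ℝ) * ((2 : ℕ) : ℝ) = ((3 : ℕ) : ℝ) := by norm_num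
      rw [e, Real.rpow_natCast, sq]
      have h3 : (Y : ℝ) * Y ≤ 9 * (N : ℝ) ^ 3 := by exact_mod_cast h1
      linarith
    exact (sq_le_sq₀ (Nat.cast_nonneg _) (by positivity)).1 h2
  constructor
  · obtain ⟨z, hz⟩ : ∃ z : ℝ, z = (N : ℝ) ^ az := ⟨_, rfl⟩
    rw [← hz]
    have hz' : (N : ℝ) ^ (9 / 100 : ℝ) ≤ z := by
      rw [hz]
      exact Real.rpow_le_rpow_of_exponent_le (by linarith) (by rw [az]; norm_num)
    obtain ⟨m, hm⟩ : ∃ m : ℕ, m = ⌈(N : ℝ) ^ (9 / 100 : ℝ)⌉₊ := ⟨_, rfl⟩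
    have hmR : (N : ℝ) ^ (9 / 100 : ℝ) ≤ m := by rw [hm]; exact Nat.le_ceil _
    have h2R : (2 : ℝ) ≤ (N : ℝ) ^ (9 / 100 : ℝ) := h9
    have hm2 : 2 ≤ m := by
      have : (2 : ℝ) ≤ m := h2R.trans hmR
      exact_mod_cast this
    have hsub : ((Z3 N).filter fun j : ℕ => wv N v j ≠ 0 ∧ ∃ q : ℕ, q.Prime ∧ z ≤ (q : ℝ) ∧ q ^ 2 ∣ j + 6) ⊆
        (Icc m Y).biUnion fun q => (Ioc a b).filter fun j => q ^ 2 ∣ j + 6 := by
      intro j hj
      rw [mem_filter] at hj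
      obtain ⟨hj1, hjw, q, hq, hzq, hqd⟩ := hj
      have hjS := hS j hjw
      rw [mem_biUnion]
      refine ⟨q, ?_, mem_filter.2 ⟨mem_Ioc.2 (hab2 j (by omega) hjw), hqd⟩⟩
      rw [mem_Icc]
      constructor
      · rw [hm]
        exact Nat.ceil_le.2 (hz'.trans hzq)
      · rw [hY, Nat.le_sqrt]
        have h1 := Nat.le_of_dvd (by omega) hqd
        calc q * q = q ^ 2 := (sq q).symm
          _ ≤ j + 6 := h1
          _ ≤ 9 * N ^ 3 := by omega
    have hc : (#((Z3 N).filter fun j : ℕ => wv N v j ≠ 0 ∧ ∃ q : ℕ, q.Prime ∧ z ≤ (q : ℝ) ∧ q ^ 2 ∣ j + 6) : ℝ) ≤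
        ∑ q ∈ Icc m Y, (#((Ioc a b).filter fun j => q ^ 2 ∣ j + 6) : ℝ) := by
      have := (card_le_card hsub).trans card_biUnion_le
      exact_mod_cast this
    refine hc.trans ?_
    have hterm : ∀ q ∈ Icc m Y, (#((Ioc a b).filter fun j => q ^ 2 ∣ j + 6) : ℝ) ≤
        12 * (N : ℝ) ^ 2 * (1 / (q : ℝ) ^ 2) + 1 := by
      intro q hq
      rw [mem_Icc] at hq
      have hq0 : 0 < q := by omega
      have h1 := SQ4_dvd a b (q ^ 2) (by positivity) hab
      refine h1.trans ?_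
      have hq0' : (0 : ℝ) < q := by exact_mod_cast hq0
      rw [mul_one_div]
      push_cast
      gcongr
    refine (sum_le_sum hterm).trans ?_
    rw [sum_add_distrib, ← mul_sum, sum_const, Nat.card_Icc, nsmul_eq_mul, mul_one]
    have hs := SQ4_sum m Y hm2
    have hm1 : 1 / ((m : ℝ) - 1) ≤ 2 * (N : ℝ) ^ (-(9 / 100) : ℝ) := by
      rw [Real.rpow_neg hN0.le, ← div_eq_mul_inv, div_le_div_iff₀ (by linarith) (by positivity)]
      linarith
    have hcY : ((Y + 1 - m : ℕ) : ℝ) ≤ Y := by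
      exact_mod_cast (by omega : Y + 1 - m ≤ Y)
    have e : 12 * (N : ℝ) ^ 2 * (2 * (N : ℝ) ^ (-(9 / 100) : ℝ)) = 24 * (N : ℝ) ^ (191 / 100 : ℝ) := by
      have : (N : ℝ) ^ 2 * (N : ℝ) ^ (-(9 / 100) : ℝ) = (N : ℝ) ^ (191 / 100 : ℝ) := by
        rw [← Real.rpow_natCast (N : ℝ) 2, ← Real.rpow_add hN0]
        norm_num
      rw [← this]
      ring
    have hfirst : 12 * (N : ℝ) ^ 2 * ∑ q ∈ Icc m Y, 1 / ((q : ℝ) ^ 2) ≤
        24 * (N : ℝ) ^ (191 / 100 : ℝ) := by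
      rw [← e]
      exact mul_le_mul_of_nonneg_left (hs.trans hm1) (by positivity)
    linarith
  · -- prime powers
    obtain ⟨K, hK⟩ : ∃ K : ℕ, K = Nat.log 2 (8 * N ^ 3) := ⟨_, rfl⟩
    have hsub : ((Z3 N).filter fun j : ℕ => wv N v j ≠ 0 ∧ ¬ j.Prime ∧ vonMangoldt j ≠ 0) ⊆
        ((range (Y + 1)) ×ˢ (range (K + 1))).image (fun w => w.1 ^ w.2) := by
      intro j hj
      rw [mem_filter] at hj
      obtain ⟨hj1, hjw, hjp, hjL⟩ := hj
      have hjS := hS j hjw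
      rw [vonMangoldt_ne_zero_iff] at hjL
      obtain ⟨p, k, hp, hk, rfl⟩ := (isPrimePow_nat_iff _).1 hjL
      have hk2 : 2 ≤ k := by
        by_contra h
        have : k = 1 := by omega
        subst this
        rw [pow_one] at hjp
        exact hjp hp
      rw [mem_image]
      refine ⟨(p, k), ?_, rfl⟩
      have hle : p ^ k ≤ 8 * N ^ 3 := by omega
      rw [mem_product, mem_range, mem_range]
      constructor
      · rw [Nat.lt_succ_iff, hY, Nat.le_sqrt]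
        calc p * p = p ^ 2 := (sq p).symm
          _ ≤ p ^ k := Nat.pow_le_pow_right hp.pos hk2
          _ ≤ 8 * N ^ 3 := hle
          _ ≤ 9 * N ^ 3 := by omega
      · rw [Nat.lt_succ_iff, hK]
        apply Nat.le_log_of_pow_le (by norm_num)
        exact (Nat.pow_le_pow_left hp.two_le k).trans hle
    have hc : #((Z3 N).filter fun j : ℕ => wv N v j ≠ 0 ∧ ¬ j.Prime ∧ vonMangoldt j ≠ 0) ≤ (Y + 1) * (K + 1) := by
      refine (card_le_card hsub).trans (card_image_le.trans ?_)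
      rw [card_product, card_range, card_range]
    have hcR : (#((Z3 N).filter fun j : ℕ => wv N v j ≠ 0 ∧ ¬ j.Prime ∧ vonMangoldt j ≠ 0) : ℝ) ≤
        ((Y : ℝ) + 1) * ((K : ℝ) + 1) := by exact_mod_cast hc
    refine hcR.trans (le_trans ?_ hB)
    have hKR : (K : ℝ) + 1 ≤ 6 * Real.log N + 7 := by
      have h1 : (2 : ℝ) ^ K ≤ 8 * (N : ℝ) ^ 3 := by
        have : 2 ^ K ≤ 8 * N ^ 3 := by
          rw [hK]
          exact Nat.pow_log_le_self 2 (by positivity)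
        exact_mod_cast this
      have h2 : (K : ℝ) * Real.log 2 ≤ 3 * Real.log 2 + 3 * Real.log N := by
        have h3 := Real.log_le_log (by positivity) h1
        rw [Real.log_pow, Real.log_mul (by norm_num) (by positivity), Real.log_pow,
          show (8 : ℝ) = 2 ^ 3 by norm_num, Real.log_pow] at h3
        push_cast at h3
        exact h3
      have h4 := Real.log_two_gt_d9
      have h5 := Real.log_two_lt_d9
      have hlN : 0 ≤ Real.log N := Real.log_natCast_nonneg N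
      have h6 : (0 : ℝ) ≤ K := Nat.cast_nonneg K
      nlinarith
    have hN32 : 1 ≤ (N : ℝ) ^ (3 / 2 : ℝ) := Real.one_le_rpow (by linarith) (by norm_num)
    calc ((Y : ℝ) + 1) * ((K : ℝ) + 1) ≤ (4 * (N : ℝ) ^ (3 / 2 : ℝ)) * (6 * Real.log N + 7) := by
          apply mul_le_mul _ hKR (by positivity) (by positivity)
          linarith
      _ = _ := by ring

end Pool.Agent.XE
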