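import Pool.Agent.helper15.XE.SpecL

set_option autoImplicit false

namespace Pool.Agent.XE

open Finset ArithmeticFunction
open Pool.Agent.EC (tri TL wt mt Adm edg mnf tI tII tyI cvl KK yN UN)
open Pool.Agent.CH (rgh Mo ClP ClB)
open GD (kp ks)

private theorem SMP_big (k : ℕ) : ∃ N₀ : ℕ, ∀ N : ℕ, N₀ ≤ N → 4 * Real.log N ^ k ≤ (N : ℝ) := by
  have h1 := (Real.isLittleO_pow_log_id_atTop (n := k)).bound (show (0 : ℝ) < 1 / 4 by norm_num)
  have h2 := tendsto_natCast_atTop_atTop (R := ℝ) |>.eventually h1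
  obtain ⟨N₀, h3⟩ := Filter.eventually_atTop.1 h2
  refine ⟨N₀ + 1, fun N hN => ?_⟩
  have h4 := h3 N (by omega)
  have hN1 : (1 : ℝ) ≤ N := by exact_mod_cast (by omega : 1 ≤ N)
  rw [Real.norm_of_nonneg (pow_nonneg (Real.log_nonneg hN1) k), id,
    Real.norm_of_nonneg (by linarith)] at h4
  linarith

private theorem SMP_TL (N : ℕ) (a b : Fin 0 → ℝ) (m : ℕ) : TL N a b m = vonMangoldt m := by
  classical
  unfold Pool.Agent.EC.TL
  rw [Finset.sum_filter]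
  simp

theorem SMP (h1 : SCK_stmt) (h2 : ESC_stmt) (h3 : NRP_stmt) (h4 : Pool.Agent.EC.KKS_stmt) (h5 : WVB_stmt) :
    SMP_stmt := by
  classical
  obtain ⟨-, -, hks, -⟩ := h4
  obtain ⟨N₅, -, hN₅⟩ := h5
  obtain ⟨N₃, hN₃⟩ := h3
  intro A B C
  obtain ⟨N₁, hN₁⟩ := h1 0 (fun _ => 0) (fun _ => 0) (Or.inl rfl) (A + 1) B
  obtain ⟨N₂, hN₂⟩ := h2 (A + 1) B C
  obtain ⟨N₄, hN₄⟩ := SMP_big (2 * B + A)
  refine ⟨max (max N₁ N₂) (max N₃ (max N₄ ⌈Real.exp 4⌉₊)) + N₅, fun N hN v hv M a R hM hM2 ha hR hRB => ?_⟩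
  have e0 : N₅ ≤ N := by omega
  have hf := fun j => ((hN₅ N e0).1 v hv).2.2.2 j
  replace hN : max (max N₁ N₂) (max N₃ (max N₄ ⌈Real.exp 4⌉₊)) ≤ N := by omega
  have e1 : N₁ ≤ N := (le_max_left _ _).trans ((le_max_left _ _).trans hN)
  have e2 : N₂ ≤ N := (le_max_right _ _).trans ((le_max_left _ _).trans hN)
  have e3 : N₃ ≤ N := (le_max_left _ _).trans ((le_max_right _ _).trans hN)
  have e4 : N₄ ≤ N :=
    (le_max_left _ _).trans ((le_max_right _ _).trans ((le_max_right _ _).trans hN))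
  have e5 : ⌈Real.exp 4⌉₊ ≤ N :=
    (le_max_right _ _).trans ((le_max_right _ _).trans ((le_max_right _ _).trans hN))
  have hNe : Real.exp 4 ≤ (N : ℝ) := (Nat.le_ceil _).trans (by exact_mod_cast e5)
  have hN0 : (0 : ℝ) < N := lt_of_lt_of_le (Real.exp_pos _) hNe
  have hL : 4 ≤ Real.log N := by rw [Real.le_log_iff_exp_le hN0]; exact hNe
  have hN1 : (1 : ℝ) ≤ N := by
    have : (1 : ℝ) ≤ Real.exp 4 := Real.one_le_exp (by norm_num)
    linarith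
  set L := Real.log N with hLd
  have hL0 : 0 < L := by linarith
  have hφ : 0 < (Nat.totient M : ℝ) := by exact_mod_cast Nat.totient_pos.2 hM
  have b1 := hN₁ N e1 v hv M a R hM hM2 ha hR hRB
  have b2 := hN₂ N e2 v hv M a R hM hM2 ha hR hRB
  simp only [SMP_TL] at b1
  have b3 := hN₃ N e3
  have b4 := hN₄ N e4
  set S := (Z3 N).filter fun j => ¬ rgh (yN N) j with hS
  have hsplit : ∀ (w : ℕ → ℝ), ∑ j ∈ Z3 N, mnf C N j * wv N v j * w j =
      ∑ j ∈ Z3 N, vonMangoldt j * wv N v j * w j - ∑ j ∈ Z3 N, edg C N j * wv N v j * w j -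
        ∑ j ∈ S, vonMangoldt j * wv N v j * w j := by
    intro w
    rw [hS, Finset.sum_filter, ← Finset.sum_sub_distrib, ← Finset.sum_sub_distrib]
    refine Finset.sum_congr rfl fun j _ => ?_
    unfold mnf
    by_cases hj : rgh (yN N) j
    · rw [if_pos hj, if_neg (not_not.2 hj)]
      ring
    · rw [if_neg hj, if_pos hj]
      ring
  have hs1 := hsplit fun j => ks R M a j
  have hs2 := hsplit fun _ => 1
  simp only [mul_one] at hs2
  have c1 : |∑ j ∈ S, vonMangoldt j * wv N v j * ks R M a j| ≤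
      (R : ℝ) ^ 2 / (Nat.totient M : ℝ) * (N : ℝ) ^ (1 / 10 : ℝ) := by
    calc |∑ j ∈ S, vonMangoldt j * wv N v j * ks R M a j|
        ≤ ∑ j ∈ S, |vonMangoldt j * wv N v j * ks R M a j| := Finset.abs_sum_le_sum_abs _ _
      _ ≤ ∑ j ∈ S, (R : ℝ) ^ 2 / (Nat.totient M : ℝ) * vonMangoldt j := by
          refine Finset.sum_le_sum fun j _ => ?_
          obtain ⟨f0, f1, -⟩ := hf j
          have v0 : 0 ≤ vonMangoldt j := vonMangoldt_nonneg
          rw [abs_mul, abs_mul, abs_of_nonneg v0, abs_of_nonneg f0]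
          have k1 := hks R M a j hM
          calc vonMangoldt j * wv N v j * |ks R M a j|
              ≤ vonMangoldt j * 1 * ((R : ℝ) ^ 2 / (Nat.totient M : ℝ)) := by gcongr
            _ = _ := by ring
      _ = (R : ℝ) ^ 2 / (Nat.totient M : ℝ) * ∑ j ∈ S, vonMangoldt j := by rw [Finset.mul_sum]
      _ ≤ _ := mul_le_mul_of_nonneg_left b3 (by positivity)
  have c2 : |∑ j ∈ S, vonMangoldt j * wv N v j| ≤ (N : ℝ) ^ (1 / 10 : ℝ) := by
    calc |∑ j ∈ S, vonMangoldt j * wv N v j|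
        ≤ ∑ j ∈ S, |vonMangoldt j * wv N v j| := Finset.abs_sum_le_sum_abs _ _
      _ ≤ ∑ j ∈ S, vonMangoldt j := by
          refine Finset.sum_le_sum fun j _ => ?_
          obtain ⟨f0, f1, -⟩ := hf j
          have v0 : 0 ≤ vonMangoldt j := vonMangoldt_nonneg
          rw [abs_mul, abs_of_nonneg v0, abs_of_nonneg f0]
          nlinarith
      _ ≤ _ := b3
  rw [hs1, hs2]
  set X1 := ∑ j ∈ Z3 N, vonMangoldt j * wv N v j * ks R M a j
  set X2 := ∑ j ∈ Z3 N, vonMangoldt j * wv N v j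
  set Y1 := ∑ j ∈ Z3 N, edg C N j * wv N v j * ks R M a j
  set Y2 := ∑ j ∈ Z3 N, edg C N j * wv N v j
  set Z1 := ∑ j ∈ S, vonMangoldt j * wv N v j * ks R M a j
  set Z2 := ∑ j ∈ S, vonMangoldt j * wv N v j
  set φ : ℝ := (Nat.totient M : ℝ) with hφd
  -- the powers
  have p1 : (N : ℝ) ^ (1 / 10 : ℝ) ≤ N := by
    calc (N : ℝ) ^ (1 / 10 : ℝ) ≤ (N : ℝ) ^ (1 : ℝ) :=
          Real.rpow_le_rpow_of_exponent_le hN1 (by norm_num)
      _ = N := Real.rpow_one _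
  have hN10 : 0 ≤ (N : ℝ) ^ (1 / 10 : ℝ) := Real.rpow_nonneg hN0.le _
  have hR2 : (R : ℝ) ^ 2 ≤ L ^ (2 * B) := by
    rw [mul_comm 2 B, pow_mul]
    exact pow_le_pow_left₀ (by positivity) hRB 2
  have hLB : 1 ≤ L ^ (2 * B) := one_le_pow₀ (by linarith)
  have p2 : ((R : ℝ) ^ 2 + 1) * (N : ℝ) ^ (1 / 10 : ℝ) ≤ (N : ℝ) ^ 2 / (2 * L ^ A) := by
    rw [le_div_iff₀ (by positivity)]
    calc ((R : ℝ) ^ 2 + 1) * (N : ℝ) ^ (1 / 10 : ℝ) * (2 * L ^ A)
        ≤ (2 * L ^ (2 * B)) * N * (2 * L ^ A) := by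
          have : (R : ℝ) ^ 2 + 1 ≤ 2 * L ^ (2 * B) := by linarith
          gcongr
      _ = (4 * L ^ (2 * B + A)) * N := by rw [pow_add]; ring
      _ ≤ N * N := mul_le_mul_of_nonneg_right b4 hN0.le
      _ = (N : ℝ) ^ 2 := by ring
  have p3 : (N : ℝ) ^ 2 / L ^ (A + 1) ≤ (N : ℝ) ^ 2 / (4 * L ^ A) := by
    apply div_le_div_of_nonneg_left (by positivity) (by positivity)
    rw [pow_succ]
    have : 0 < L ^ A := by positivity
    nlinarith
  have q1 : |X1 - 1 / φ * X2| ≤ 1 / φ * ((N : ℝ) ^ 2 / (4 * L ^ A)) :=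
    b1.trans (mul_le_mul_of_nonneg_left p3 (by positivity))
  have q2 : |Y1 - 1 / φ * Y2| ≤ 1 / φ * ((N : ℝ) ^ 2 / (4 * L ^ A)) :=
    b2.trans (mul_le_mul_of_nonneg_left p3 (by positivity))
  have q3 : |Z1 - 1 / φ * Z2| ≤ 1 / φ * ((N : ℝ) ^ 2 / (2 * L ^ A)) := by
    calc |Z1 - 1 / φ * Z2| ≤ |Z1| + |1 / φ * Z2| := abs_sub _ _
      _ ≤ (R : ℝ) ^ 2 / φ * (N : ℝ) ^ (1 / 10 : ℝ) + 1 / φ * (N : ℝ) ^ (1 / 10 : ℝ) := by
          refine add_le_add c1 ?_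
          rw [abs_mul, abs_of_pos (by positivity : 0 < 1 / φ)]
          exact mul_le_mul_of_nonneg_left c2 (by positivity)
      _ = 1 / φ * (((R : ℝ) ^ 2 + 1) * (N : ℝ) ^ (1 / 10 : ℝ)) := by ring
      _ ≤ _ := mul_le_mul_of_nonneg_left p2 (by positivity)
  have hfin : 1 / φ * ((N : ℝ) ^ 2 / L ^ A) = 1 / φ * ((N : ℝ) ^ 2 / (4 * L ^ A)) +
      1 / φ * ((N : ℝ) ^ 2 / (4 * L ^ A)) + 1 / φ * ((N : ℝ) ^ 2 / (2 * L ^ A)) := by
    field_simp
    ring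
  rw [hfin]
  rw [abs_le] at q1 q2 q3 ⊢
  constructor <;> linarith [q1.1, q1.2, q2.1, q2.2, q3.1, q3.2]

end Pool.Agent.XE
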